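import Pool.Agent.H.MP_c6b81c_an.A

open Set Metric Filter Topology Complex
open scoped ComplexConjugate Real ContDiff

namespace Pool.Agent.Results.MP_c6b81c_an.Stair

open H.MP_c6b81c_an

variable {W : Type} [NormedAddCommGroup W] [NormedSpace ℝ W] [NormedSpace ℂ W]

def Disc (Ω : Set W) (p q : W) (t : ℝ) : Prop :=
  ∃ (f : ℂ → W) (a b : ℂ), DifferentiableOn ℂ f (ball 0 1) ∧ MapsTo f (ball 0 1) Ω ∧
    ‖a‖ < 1 ∧ ‖b‖ < 1 ∧ f a = p ∧ f b = q ∧ t = Real.artanh ‖(a - b) / (1 - conj a * b)‖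

def Chain (Ω : Set W) (z w : W) (m : ℕ) (s : ℝ) : Prop :=
  ∃ (p : ℕ → W) (t : ℕ → ℝ), p 0 = z ∧ p m = w ∧ (∀ j < m, Disc Ω (p j) (p (j + 1)) (t j)) ∧
    s = ∑ j ∈ Finset.range m, t j

noncomputable def Levi (ρ : W → ℝ) (x ξ : W) : ℝ :=
  iteratedFDeriv ℝ 2 ρ x ![ξ, ξ] + iteratedFDeriv ℝ 2 ρ x ![I • ξ, I • ξ]

def Spsc (Ω : Set W) : Prop :=
  IsOpen Ω ∧ IsConnected Ω ∧ Bornology.IsBounded Ω ∧ ∃ ρ : W → ℝ, ContDiff ℝ ∞ ρ ∧
    Ω = {x | ρ x < 0} ∧ ∀ x, ρ x = 0 → fderiv ℝ ρ x ≠ 0 ∧ ∀ ξ ≠ 0, 0 < Levi ρ x ξ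

lemma mem {m N : ℕ} {μ t : ℝ} (t0 : 0 ≤ t) (t1 : t ≤ 1) (h : t ^ (m + 1) ≤ 1 / 4) {z w : ℂ} (a : ‖z - w‖ ≤ 3)
    (b : ‖z‖ ≤ N + 2) (c : ‖w‖ ≤ N + 2) (j : ℕ) (e : z = j ∨ w = j) : r m (4 * (N + 3)) μ !₂[z, w, t] < 0 := by
  have : P !₂[z, w, t] = 0 := by
    rcases e with rfl | rfl <;> simp [P, mul_comm (π : ℂ), ← ofReal_natCast, ← ofReal_mul, ← ofReal_sin]
  have k : (‖z‖ ^ 2 + ‖w‖ ^ 2 + t ^ 2) / (4 * (N + 3)) ^ 2 ≤ 1 / 8 := by
    rw [div_le_iff₀ (by positivity)]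
    nlinarith [pow_le_pow_left₀ (norm_nonneg _) b 2, pow_le_pow_left₀ (norm_nonneg _) c 2, N.cast_nonneg (α := ℝ)]
  simp [r, this, abs_of_nonneg t0, div_pow] at k ⊢
  nlinarith [pow_nonneg t0 (m + 1), norm_nonneg (z - w)]

theorem result (K : ℕ) : ∃ Ω : Set (EuclideanSpace ℂ (Fin 3)), Spsc Ω ∧ ∃ z ∈ Ω, ∃ w ∈ Ω, (∃ m s, Chain Ω z w m s) ∧
    ∀ s, Chain Ω z w K s → sInf {t | ∃ m, Chain Ω z w m t} < s := by
  obtain ⟨N, hN⟩ : ∃ N, N = 10 * K + 1 := ⟨_, rfl⟩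
  obtain ⟨b, b0, b1, hb⟩ : ∃ b, 0 ≤ b ∧ b < 1 ∧ ∀ x < 1, Real.artanh x ≤ 2 * N * Real.artanh (1 / 2) → x ≤ b :=
    ⟨max 0 _, le_max_left _ _, max_lt one_pos (Real.tanh_lt_one (2 * N * Real.artanh (1 / 2))), fun x a h =>
      le_max_of_le_right (not_lt.1 fun k => (Real.artanh_lt_artanh (Real.neg_one_lt_tanh _) a k).not_ge
        (by rwa [Real.artanh_tanh]))⟩
  obtain ⟨μ, μ0, H⟩ := step (B := 4 * (N + 3)) (by linarith [N.cast_nonneg (α := ℝ)]) b1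
  have D1 : 1 ≤ (1 + b) / (1 - b) := (one_le_div (by linarith)).2 (by linarith)
  generalize (1 + b) / (1 - b) = D at *
  obtain ⟨t, t0, t1, e⟩ : ∃ t, 0 ≤ t ∧ t < 1 ∧ (1 - t) * D ^ K = 1 / 2 := ⟨1 - 1 / 2 / D ^ K, by
    linarith [div_le_self one_half_pos.le (one_le_pow₀ D1 (n := K))], sub_lt_self _ (by positivity), by field_simp; ring⟩
  obtain ⟨m, hm⟩ := exists_pow_lt_of_lt_one (show (0 : ℝ) < 1 / 4 by norm_num) t1
  have hm := (pow_le_pow_of_le_one t0 t1.le m.le_succ).trans hm.le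
  have c : Chain {x | r m (4 * (N + 3)) μ x < 0} !₂[0, 0, t] !₂[N, N, t] (2 * N) (2 * N * Real.artanh (1 / 2)) := by
    refine ⟨fun i => !₂[((i + 1) / 2 : ℕ), (i / 2 : ℕ), t], fun _ => Real.artanh (1 / 2), by simp,
      by simp [Nat.mul_add_div], fun i hi => ⟨fun ζ => !₂[((i + 1) / 2 : ℕ) + 2 * ζ * ((i + 1) % 2 : ℕ),
        (i / 2 : ℕ) + 2 * ζ * (i % 2 : ℕ), t], 0, 1 / 2, ((differentiable_piLp 2).2 fun i => by
          fin_cases i <;> simp <;> fun_prop).differentiableOn, fun ζ k => ?_,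
          by simp, by norm_num, by simp, ?_, by simp⟩, by simp⟩
    · have k := (mem_ball_zero_iff.1 k).le
      have l (x : ℕ) (h : x ≤ N) : ‖x + 2 * ζ‖ ≤ N + 2 ∧ ‖(x : ℂ)‖ ≤ N + 2 := by
        have : (x : ℝ) ≤ N := by exact_mod_cast h
        exact ⟨(norm_add_le _ _).trans (by simp; linarith), by simp; linarith⟩
      beta_reduce
      obtain ⟨j, rfl | rfl⟩ := i.even_or_odd'
      · rw [show (2 * j + 1) / 2 = j by omega, show (2 * j + 1) % 2 = 1 by omega, show 2 * j / 2 = j by omega,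
          show 2 * j % 2 = 0 by omega]
        exact mem t0 t1.le hm (by simp; linarith) (by simpa using (l j (by omega)).1) (by simpa using (l j (by omega)).2)
          j (.inr (by simp))
      · rw [show (2 * j + 1) / 2 = j by omega, show (2 * j + 1) % 2 = 1 by omega,
          show (2 * j + 1 + 1) / 2 = j + 1 by omega, show (2 * j + 1 + 1) % 2 = 0 by omega]
        exact mem t0 t1.le hm (by simpa using (norm_sub_le 1 (2 * ζ)).trans (by simp; linarith))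
          (by simpa using (l (j + 1) (by omega)).2) (by simpa using (l j (by omega)).1) (j + 1) (.inl (by simp))
    · have l (x : ℕ) : ((x / 2 : ℕ) : ℂ) + 2 * (1 / 2) * (x % 2 : ℕ) = ((x + 1) / 2 : ℕ) := by
        rw [show (x + 1) / 2 = x / 2 + x % 2 by omega]; push_cast; ring
      simp only [l]
  have B0 : (0 : ℝ) < 4 * (N + 3) := by positivity
  have nn {Ω : Set V} {p q t} (h : Disc Ω p q t) : 0 ≤ t :=
    let ⟨_, _, _, _, _, _, _, _, _, e⟩ := h; e ▸ Real.artanh_nonneg (norm_nonneg _)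
  refine ⟨_, ⟨isOpen_lt rc.continuous continuous_const, cn, isBounded_iff_forall_norm_le.2
    ⟨_, fun x h => (rb B0 μ0 h).2.2.1.le⟩, _, rc, rfl, fun x h => ⟨gr B0 h, fun ξ k => by
      simpa [Levi, iteratedFDeriv_two_apply] using levi B0 k⟩⟩, _,
      mem t0 t1.le hm (by simp) (by simp; positivity) (by simp; positivity) 0 (by simp), _,
      mem t0 t1.le hm (by simp) (by simp) (by simp) N (by simp), ⟨_, _, c⟩, fun s ⟨p, f, p0, p1, h, es⟩ =>
        lt_of_le_of_lt (b := 2 * N * Real.artanh (1 / 2)) (csInf_le ⟨0, fun s ⟨m, p, f, _, _, h, e⟩ => e ▸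
          Finset.sum_nonneg fun j k => nn (h j (Finset.mem_range.1 k))⟩ ⟨_, c⟩) (not_le.1 fun k => ?_)⟩
  have I j (hj : j ≤ K) : ‖1 - p j 2‖ ≤ (1 - t) * D ^ j ∧ (p j 1).re ≤ 10 * j := by
    induction j with
    | zero => simp [p0, ← ofReal_one, ← ofReal_sub, abs_of_pos (sub_pos.2 t1)]
    | succ j ih =>
    obtain ⟨u, v⟩ := ih (by omega)
    obtain ⟨g, a, d, h1, h2, h3, h4, h5, h6, h7⟩ := h j hj
    have mt : MapsTo (fun ζ => (a - ζ) / (1 - conj a * ζ)) (ball 0 1) (ball 0 1) := fun ζ k =>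
      mem_ball_zero_iff.2 (mob h3 (mem_ball_zero_iff.1 k)).2
    have := H m _ ((a - d) / (1 - conj a * d)) (hb _ (mob h3 h4).2 (h7.ge.trans ((Finset.single_le_sum
      (fun j k => nn (h j (Finset.mem_range.1 k))) (Finset.mem_range.2 hj)).trans (es ▸ k)))) (h1.comp
        (DifferentiableOn.fun_div (by fun_prop) (by fun_prop) fun ζ k => (mob h3 (mem_ball_zero_iff.1 k)).1) mt)
          (h2.comp mt)
    have e' : (a - (a - d) / (1 - conj a * d)) / (1 - conj a * ((a - d) / (1 - conj a * d))) = d := by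
      rw [div_eq_iff (mob h3 (mob h3 h4).2).1]
      linear_combination (d - a) * mul_inv_cancel₀ (mob h3 h4).1
    simp only [Function.comp, e', sub_zero, mul_zero, div_one, h5, h6] at this
    have q : ‖1 - p (j + 1) 2‖ ≤ (1 - t) * D ^ (j + 1) := this.1.trans (by rw [pow_succ, ← mul_assoc]; gcongr)
    have := this.2 (by
      have := mul_le_mul_of_nonneg_left (pow_le_pow_right₀ D1 hj) (sub_pos.2 t1).le
      have := norm_sub_norm_le 1 (p (j + 1) 2)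
      rw [norm_one] at this; linarith)
    exact ⟨q, by push_cast; linarith⟩
  exact absurd (I K le_rfl).2 (by simp [p1, hN])

end Pool.Agent.Results.MP_c6b81c_an.Stair
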